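import Mathlib
import Pool.Agent.Lib.MP_b1931f_gt.Submersion

/-!
# Weakly integrable submanifolds that are not complete intersections, in the range `n ≤ 2k`

For every `k ≥ 3` there is a weakly integrable `k`-submanifold of `E^(k+3)` that is not a
complete intersection.
-/

open scoped Manifold ContDiff Topology
open Set Metric

namespace Pool.Agent.Results.MP_b1931f_gt.WeakNotCI

/-- Euclidean `n`-space. -/
abbrev E (n : ℕ) : Type := EuclideanSpace ℝ (Fin n)

section Basic

variable {V W : Type} [NormedAddCommGroup V] [NormedSpace ℝ V] [NormedAddCommGroup W]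
  [NormedSpace ℝ W]

/-- `Φ : V → W` is smooth. -/
def Smooth (Φ : V → W) : Prop := ContDiff ℝ ∞ Φ

/-- The derivative of `Φ : V → W` at `x` is surjective. -/
def SubmersionAt (Φ : V → W) (x : V) : Prop := Function.Surjective (fderiv ℝ Φ x)

variable (V W) (M : Type) [TopologicalSpace M] [ChartedSpace V M]

/-- `M` is a smooth manifold (without boundary) modelled on the vector space `V`. -/
def SmoothManifold : Prop := IsManifold 𝓘(ℝ, V) ∞ M

/-- All coordinate changes of the atlas of `M` have positive Jacobian determinant, so that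
the atlas orients the manifold `M`. -/
def OrientedAtlas : Prop :=
  ∀ e ∈ atlas V M, ∀ e' ∈ atlas V M, ∀ x ∈ (e.symm.trans e').source,
    0 < (fderiv ℝ (e.symm.trans e') x).det

/-- The map `h` from the manifold `M` to the vector space `W` is smooth. -/
def SmoothMap (h : M → W) : Prop := ContMDiff 𝓘(ℝ, V) 𝓘(ℝ, W) ∞ h

/-- The differential of `h : M → W` at `x` is injective. -/
def ImmersionAt (h : M → W) (x : M) : Prop :=
  Function.Injective (mfderiv 𝓘(ℝ, V) 𝓘(ℝ, W) h x)

end Basic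

/-- `L ⊆ E^n` is a `k`-submanifold: the image of a one-to-one proper smooth immersion
`h : M → E^n` of a smooth oriented `k`-manifold `M` (Hausdorff, second countable, without
boundary, not necessarily compact or connected). -/
def IsSubmanifold (k n : ℕ) (L : Set (E n)) : Prop :=
  ∃ (M : Type) (_ : TopologicalSpace M) (_ : ChartedSpace (E k) M),
    T2Space M ∧ SecondCountableTopology M ∧ SmoothManifold (E k) M ∧ OrientedAtlas (E k) M ∧
    ∃ h : M → E n, SmoothMap (E k) (E n) M h ∧ (∀ x, ImmersionAt (E k) (E n) M h x) ∧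
      Function.Injective h ∧ IsProperMap h ∧ Set.range h = L

/-- `L` is weakly integrable (WI): some smooth submersion `Φ : E^n → E^(n-k)` satisfies
`L ⊆ Φ⁻¹(0)`. -/
def WeaklyIntegrable (k n : ℕ) (L : Set (E n)) : Prop :=
  ∃ Φ : E n → E (n - k), Smooth Φ ∧ (∀ x, SubmersionAt Φ x) ∧ ∀ x ∈ L, Φ x = 0

/-- `L` is a complete intersection (CI): some smooth map `Ξ : E^n → E^(n-k)` has `0` as a
regular value and satisfies `L = Ξ⁻¹(0)`. -/
def CompleteIntersection (k n : ℕ) (L : Set (E n)) : Prop :=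
  ∃ Ξ : E n → E (n - k), Smooth Ξ ∧ (∀ x, Ξ x = 0 → SubmersionAt Ξ x) ∧
    ∀ x, x ∈ L ↔ Ξ x = 0

/-! ### Submanifolds parametrised by an open subset of `E^k` -/

theorem chart_coe (k : ℕ) (O : TopologicalSpace.Opens (E k))
    (e : OpenPartialHomeomorph O (E k)) (he : e ∈ atlas (E k) O) (p : O) : e p = p.1 := by
  obtain ⟨x, rfl⟩ := TopologicalSpace.Opens.chart_eq ⟨p⟩ he
  simp [OpenPartialHomeomorph.subtypeRestr_coe]

theorem orientedAtlas_opens (k : ℕ) (O : TopologicalSpace.Opens (E k)) :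
    OrientedAtlas (E k) O := by
  intro e he e' he' x hx
  have hev : (e.symm.trans e' : E k → E k) =ᶠ[𝓝 x] id := by
    filter_upwards [(e.symm.trans e').open_source.mem_nhds hx] with y hy
    have hy1 : y ∈ e.target := hy.1
    have h1 : e (e.symm y) = y := e.right_inv hy1
    rw [chart_coe k O e he] at h1
    change e' (e.symm y) = y
    rw [chart_coe k O e' he', h1]
  rw [hev.fderiv_eq, fderiv_id]
  simp [ContinuousLinearMap.det]

theorem isSubmanifold_of {k n : ℕ} (O : TopologicalSpace.Opens (E k)) (H : E k → E n)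
    (ρ : E n → E k) (hH : ∀ x ∈ O, ContDiffAt ℝ ∞ H x) (hρ : ContDiff ℝ ∞ ρ)
    (hleft : ∀ x ∈ O, ρ (H x) = x) (L : Set (E n)) (hL : IsClosed L)
    (himg : H '' (O : Set (E k)) = L) : IsSubmanifold k n L := by
  let h : O → E n := fun x => H x.1
  have hsm : ContMDiff (𝓡 k) (𝓡 n) ∞ h := by
    intro x
    exact (hH x.1 x.2).contMDiffAt.comp x (contMDiff_subtype_val x)
  have hcomp : ρ ∘ h = Subtype.val := by
    funext x
    exact hleft x.1 x.2
  have hrange : Set.range h = L := by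
    rw [← himg]
    ext y
    constructor
    · rintro ⟨x, rfl⟩; exact ⟨x.1, x.2, rfl⟩
    · rintro ⟨x, hx, rfl⟩; exact ⟨⟨x, hx⟩, rfl⟩
  refine ⟨O, inferInstance, inferInstance, inferInstance, inferInstance,
    (inferInstance : IsManifold (𝓡 k) ∞ O),
    orientedAtlas_opens k O, h, hsm, ?_, ?_, ?_, hrange⟩
  rotate_left
  · intro x y hxy
    have := congrArg ρ hxy
    exact Subtype.ext (by rw [← hleft x.1 x.2, ← hleft y.1 y.2]; exact this)
  · rw [isProperMap_iff_isCompact_preimage]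
    refine ⟨hsm.continuous, ?_⟩
    intro K hK
    rw [Topology.IsInducing.subtypeVal.isCompact_iff]
    have : Subtype.val '' (h ⁻¹' K) = ρ '' (K ∩ L) := by
      ext x
      constructor
      · rintro ⟨y, hy, rfl⟩
        exact ⟨h y, ⟨hy, hrange ▸ ⟨y, rfl⟩⟩, hleft y.1 y.2⟩
      · rintro ⟨z, ⟨hz, hzL⟩, rfl⟩
        rw [← hrange] at hzL
        obtain ⟨y, rfl⟩ := hzL
        exact ⟨y, hz, (hleft y.1 y.2).symm⟩
    have hc := (hK.inter_right hL).image hρ.continuous
    rw [← this] at hc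
    exact hc
  · intro x
    have h1 : MDifferentiableAt (𝓡 n) (𝓡 k) ρ (h x) :=
      (hρ.contMDiff (x := h x)).mdifferentiableAt (by simp)
    have h2 : MDifferentiableAt (𝓡 k) (𝓡 n) h x := (hsm x).mdifferentiableAt (by simp)
    have h3 := mfderiv_comp x h1 h2
    rw [hcomp] at h3
    have h4 : Function.Injective (mfderiv (𝓡 k) (𝓡 k) (Subtype.val : O → E k) x) := by
      have h5 := (mdifferentiable_of_mem_atlas (I := 𝓡 k)
        (chart_mem_atlas (E k) x)).mfderiv_injective (mem_chart_source (E k) x)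
      have h6 : (chartAt (E k) x : O → E k) = Subtype.val := by
        funext p
        exact chart_coe k O _ (chart_mem_atlas (E k) x) p
      rw [h6] at h5
      exact h5
    rw [h3] at h4
    exact Function.Injective.of_comp h4

/-! ### The parametrisation of the model pair -/

open Pool.Agent.Lib.MP_b1931f_gt

/-- inside the unit ball -/
noncomputable def Hin (x : E3) : E3 × E3 := ((Real.sqrt (1 - ‖x‖ ^ 2))⁻¹ • x, 0)

/-- outside the unit ball -/
noncomputable def Hout (x : E3) : E3 × E3 :=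
  (Real.log (‖x‖ ^ 2 - 1) • EuclideanSpace.single 0 (1 : ℝ), ‖x‖⁻¹ • x)

/-- parametrisation of the model pair by `E^3` minus the unit sphere -/
noncomputable def Hm (x : E3) : E3 × E3 := open Classical in if ‖x‖ < 1 then Hin x else Hout x

/-- the retraction -/
noncomputable def rho (p : E3 × E3) : E3 :=
  (1 - ‖p.2‖ ^ 2) • ((Real.sqrt (1 + ‖p.1‖ ^ 2))⁻¹ • p.1) + Real.sqrt (1 + Real.exp (p.1 0)) • p.2

theorem Hin_smooth (x : E3) (hx : ‖x‖ < 1) : ContDiffAt ℝ ∞ Hin x := by
  have h1 : ContDiffAt ℝ ∞ (fun x : E3 => 1 - ‖x‖ ^ 2) x :=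
    contDiffAt_const.sub (contDiff_norm_sq ℝ).contDiffAt
  have h2 : (1 - ‖x‖ ^ 2 : ℝ) ≠ 0 := by
    have := norm_nonneg x
    have : ‖x‖ ^ 2 < 1 := by nlinarith
    linarith
  have h3 : ContDiffAt ℝ ∞ (fun x : E3 => Real.sqrt (1 - ‖x‖ ^ 2)) x := h1.sqrt h2
  have h4 : Real.sqrt (1 - ‖x‖ ^ 2) ≠ 0 := by
    have := norm_nonneg x
    have : ‖x‖ ^ 2 < 1 := by nlinarith
    exact (Real.sqrt_pos.2 (by linarith)).ne'
  exact ((h3.inv h4).smul contDiffAt_id).prodMk contDiffAt_const

theorem Hout_smooth (x : E3) (hx : 1 < ‖x‖) : ContDiffAt ℝ ∞ Hout x := by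
  have h1 : ContDiffAt ℝ ∞ (fun x : E3 => ‖x‖ ^ 2 - 1) x :=
    (contDiff_norm_sq ℝ).contDiffAt.sub contDiffAt_const
  have h2 : (‖x‖ ^ 2 - 1 : ℝ) ≠ 0 := by
    have : 1 < ‖x‖ ^ 2 := by nlinarith
    linarith
  have hx0 : x ≠ 0 := by
    rintro rfl; simp at hx; linarith
  have h3 : ContDiffAt ℝ ∞ (fun x : E3 => ‖x‖) x := contDiffAt_norm ℝ hx0
  exact ((h1.log h2).smul contDiffAt_const).prodMk
    ((h3.inv (norm_ne_zero_iff.2 hx0)).smul contDiffAt_id)

theorem Hm_smooth (x : E3) (hx : ‖x‖ ≠ 1) : ContDiffAt ℝ ∞ Hm x := by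
  rcases lt_or_gt_of_ne hx with h | h
  · refine (Hin_smooth x h).congr_of_eventuallyEq ?_
    filter_upwards [(continuous_norm.isOpen_preimage _ isOpen_Iio).mem_nhds (show x ∈ norm ⁻¹' Iio 1 from h)] with y hy
    simp only [Hm]
    exact if_pos hy
  · refine (Hout_smooth x h).congr_of_eventuallyEq ?_
    filter_upwards [(continuous_norm.isOpen_preimage _ isOpen_Ioi).mem_nhds (show x ∈ norm ⁻¹' Ioi 1 from h)] with y hy
    simp only [Hm]
    exact if_neg (not_lt.2 (le_of_lt hy))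

theorem rho_smooth : ContDiff ℝ ∞ rho := by
  have h1 : ContDiff ℝ ∞ fun p : E3 × E3 => (1 - ‖p.2‖ ^ 2 : ℝ) :=
    contDiff_const.sub ((contDiff_norm_sq ℝ).comp contDiff_snd)
  have h2 : ContDiff ℝ ∞ fun p : E3 × E3 => (1 + ‖p.1‖ ^ 2 : ℝ) :=
    contDiff_const.add ((contDiff_norm_sq ℝ).comp contDiff_fst)
  have h3 : ∀ p : E3 × E3, (1 + ‖p.1‖ ^ 2 : ℝ) ≠ 0 := fun p => by positivity
  have h4 : ∀ p : E3 × E3, Real.sqrt (1 + ‖p.1‖ ^ 2 : ℝ) ≠ 0 := fun p =>
    (Real.sqrt_pos.2 (by positivity)).ne'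
  have h5 : ContDiff ℝ ∞ fun p : E3 × E3 => (Real.sqrt (1 + ‖p.1‖ ^ 2 : ℝ))⁻¹ :=
    (h2.sqrt h3).inv h4
  have h6 : ContDiff ℝ ∞ fun p : E3 × E3 => (1 + Real.exp (p.1 0) : ℝ) :=
    contDiff_const.add exp_contDiff
  have h7 : ∀ p : E3 × E3, (1 + Real.exp (p.1 0) : ℝ) ≠ 0 := fun p => by positivity
  exact (h1.smul (h5.smul contDiff_fst)).add ((h6.sqrt h7).smul contDiff_snd)

theorem rho_Hm (x : E3) (hx : ‖x‖ ≠ 1) : rho (Hm x) = x := by
  rcases lt_or_gt_of_ne hx with h | h
  · have e : Hm x = Hin x := if_pos h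
    have hx0 := norm_nonneg x
    have hpos : 0 < 1 - ‖x‖ ^ 2 := by nlinarith
    set a := Real.sqrt (1 - ‖x‖ ^ 2) with ha
    have hapos : 0 < a := Real.sqrt_pos.2 hpos
    have ha2 : a ^ 2 = 1 - ‖x‖ ^ 2 := Real.sq_sqrt hpos.le
    have h1 : Real.sqrt (1 + ‖a⁻¹ • x‖ ^ 2) = a⁻¹ := by
      rw [norm_smul, norm_inv, Real.norm_eq_abs, abs_of_pos hapos]
      have : 1 + (a⁻¹ * ‖x‖) ^ 2 = (a⁻¹) ^ 2 := by
        field_simp
        rw [ha2]; ring
      rw [this, Real.sqrt_sq (inv_pos.2 hapos).le]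
    rw [e, Hin, rho]
    simp only [← ha, h1]
    simp [smul_smul, hapos.ne']
  · have e : Hm x = Hout x := if_neg (not_lt.2 h.le)
    have hx0 : 0 < ‖x‖ := by linarith
    have hpos : 0 < ‖x‖ ^ 2 - 1 := by nlinarith
    have h1 : ‖(‖x‖⁻¹ • x)‖ = 1 := by
      rw [norm_smul, norm_inv, norm_norm, inv_mul_cancel₀ hx0.ne']
    rw [e, Hout, rho]
    simp only [h1]
    simp only [one_pow, sub_self, zero_smul, zero_add]
    have h2 : ((Real.log (‖x‖ ^ 2 - 1) • EuclideanSpace.single 0 (1 : ℝ) : E3)) 0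
        = Real.log (‖x‖ ^ 2 - 1) := by simp
    rw [h2, Real.exp_log hpos]
    have h3 : Real.sqrt (1 + (‖x‖ ^ 2 - 1)) = ‖x‖ := by
      rw [show 1 + (‖x‖ ^ 2 - 1) = ‖x‖ ^ 2 by ring, Real.sqrt_sq hx0.le]
    rw [h3, smul_smul, mul_inv_cancel₀ hx0.ne', one_smul]

theorem Hm_mem (x : E3) (hx : ‖x‖ ≠ 1) : Hm x ∈ modelL := by
  rcases lt_or_gt_of_ne hx with h | h
  · have e : Hm x = Hin x := if_pos h
    rw [e]; exact Or.inl rfl
  · have e : Hm x = Hout x := if_neg (not_lt.2 h.le)
    have hx0 : 0 < ‖x‖ := by linarith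
    rw [e]
    refine Or.inr ⟨?_, ?_, ?_⟩
    · change ‖(‖x‖⁻¹ • x)‖ = 1
      rw [norm_smul, norm_inv, norm_norm, inv_mul_cancel₀ hx0.ne']
    · simp [Hout]
    · simp [Hout]

theorem rho_norm (p : E3 × E3) (hp : p ∈ modelL) : ‖rho p‖ ≠ 1 ∧ Hm (rho p) = p := by
  obtain ⟨x, y⟩ := p
  rcases hp with h | ⟨h1, h2, h3⟩
  · simp only at h
    subst h
    have hx0 := norm_nonneg x
    set b := Real.sqrt (1 + ‖x‖ ^ 2) with hb
    have hbpos : 0 < b := Real.sqrt_pos.2 (by positivity)
    have hb2 : b ^ 2 = 1 + ‖x‖ ^ 2 := Real.sq_sqrt (by positivity)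
    have hr : rho (x, 0) = b⁻¹ • x := by simp [rho, ← hb]
    have hn : ‖rho (x, 0)‖ = b⁻¹ * ‖x‖ := by
      rw [hr, norm_smul, norm_inv, Real.norm_eq_abs, abs_of_pos hbpos]
    have hlt : ‖rho (x, 0)‖ < 1 := by
      rw [hn, inv_mul_lt_iff₀ hbpos, mul_one]
      nlinarith
    refine ⟨hlt.ne, ?_⟩
    have e : Hm (rho (x, 0)) = Hin (rho (x, 0)) := if_pos hlt
    have h1 : Real.sqrt (1 - ‖rho (x, 0)‖ ^ 2) = b⁻¹ := by
      rw [hn]
      have : 1 - (b⁻¹ * ‖x‖) ^ 2 = (b⁻¹) ^ 2 := by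
        field_simp
        rw [hb2]; ring
      rw [this, Real.sqrt_sq (inv_pos.2 hbpos).le]
    rw [e, Hin, h1, hr, smul_smul, inv_inv, mul_inv_cancel₀ hbpos.ne', one_smul]
  · simp only at h1 h2 h3
    set c := Real.sqrt (1 + Real.exp (x 0)) with hc
    have hepos := Real.exp_pos (x 0)
    have hcpos : 0 < c := Real.sqrt_pos.2 (by positivity)
    have hc2 : c ^ 2 = 1 + Real.exp (x 0) := Real.sq_sqrt (by positivity)
    have hr : rho (x, y) = c • y := by
      simp [rho, h1, ← hc]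
    have hn : ‖rho (x, y)‖ = c := by
      rw [hr, norm_smul, h1, mul_one, Real.norm_eq_abs, abs_of_pos hcpos]
    have hgt : 1 < ‖rho (x, y)‖ := by
      rw [hn]; nlinarith
    refine ⟨hgt.ne', ?_⟩
    have e : Hm (rho (x, y)) = Hout (rho (x, y)) := if_neg (not_lt.2 hgt.le)
    rw [e, Hout, hn, hr, hc2, smul_smul, inv_mul_cancel₀ hcpos.ne', one_smul]
    rw [show 1 + Real.exp (x 0) - 1 = Real.exp (x 0) by ring, Real.log_exp]
    ext i
    · fin_cases i
      · simp
      · simp [h2]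
      · simp [h3]
    · rfl

theorem modelL_closed : IsClosed modelL := by
  have h1 : IsClosed {p : E3 × E3 | p.2 = 0} := isClosed_eq continuous_snd continuous_const
  have h2 : IsClosed {p : E3 × E3 | ‖p.2‖ = 1} :=
    isClosed_eq (continuous_norm.comp continuous_snd) continuous_const
  have h3 : IsClosed {p : E3 × E3 | p.1 1 = 0} :=
    isClosed_eq ((EuclideanSpace.proj (1 : Fin 3) : E3 →L[ℝ] ℝ).continuous.comp continuous_fst)
      continuous_const
  have h4 : IsClosed {p : E3 × E3 | p.1 2 = 0} :=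
    isClosed_eq ((EuclideanSpace.proj (2 : Fin 3) : E3 →L[ℝ] ℝ).continuous.comp continuous_fst)
      continuous_const
  exact h1.union (h2.inter (h3.inter h4))

/-- **Main theorem.** For every `k ≥ 3` there is a weakly integrable `k`-submanifold `L` of
`E^(k+3)` (so `n = k + 3 ≤ 2k`) that is not a complete intersection. -/
theorem result (k : ℕ) (hk : 3 ≤ k) :
    k < k + 3 ∧ k + 3 ≤ 2 * k ∧
      ∃ L : Set (E (k + 3)), IsSubmanifold k (k + 3) L ∧ WeaklyIntegrable k (k + 3) L ∧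
        ¬ CompleteIntersection k (k + 3) L := by
  refine ⟨by omega, by omega, ?_⟩
  obtain ⟨j, rfl⟩ := Nat.exists_eq_add_of_le hk
  let B : E (3 + j) ≃L[ℝ] E3 × E j := ContinuousLinearEquiv.ofFinrankEq (by simp)
  let A : E (3 + j + 3) ≃L[ℝ] (E3 × E3) × E j := ContinuousLinearEquiv.ofFinrankEq (by simp; ring)
  let C : E (3 + j + 3 - (3 + j)) ≃L[ℝ] E3 := ContinuousLinearEquiv.ofFinrankEq (by simp)
  let L : Set (E (3 + j + 3)) := {p | (A p).1 ∈ modelL}
  refine ⟨L, ?_, ?_, ?_⟩
  · -- `L` is a submanifold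
    let O : TopologicalSpace.Opens (E (3 + j)) := ⟨{x | ‖(B x).1‖ ≠ 1},
      isOpen_ne_fun (continuous_norm.comp (continuous_fst.comp B.continuous)) continuous_const⟩
    refine isSubmanifold_of O (fun x => A.symm (Hm (B x).1, (B x).2))
      (fun p => B.symm (rho (A p).1, (A p).2)) ?_ ?_ ?_ L ?_ ?_
    · intro x hx
      have hB1 : ContDiffAt ℝ ∞ (fun x => (B x).1) x := contDiffAt_fst.comp x B.contDiff.contDiffAt
      have hB2 : ContDiffAt ℝ ∞ (fun x => (B x).2) x := contDiffAt_snd.comp x B.contDiff.contDiffAt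
      have hx' : ‖(B x).1‖ ≠ 1 := hx
      have h1 : ContDiffAt ℝ ∞ (fun x => Hm (B x).1) x :=
        ContDiffAt.comp (g := Hm) x (Hm_smooth _ hx') hB1
      exact A.symm.contDiff.contDiffAt.comp x (h1.prodMk hB2)
    · have h1 : ContDiff ℝ ∞ fun p => rho (A p).1 := rho_smooth.comp (contDiff_fst.comp A.contDiff)
      have h2 : ContDiff ℝ ∞ fun p => (A p).2 := contDiff_snd.comp A.contDiff
      exact B.symm.contDiff.comp (h1.prodMk h2)
    · intro x hx
      simp only [ContinuousLinearEquiv.apply_symm_apply]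
      rw [rho_Hm _ hx]
      simp
    · exact modelL_closed.preimage (continuous_fst.comp A.continuous)
    · ext p
      constructor
      · rintro ⟨x, hx, rfl⟩
        change (A (A.symm (Hm (B x).1, (B x).2))).1 ∈ modelL
        simp only [ContinuousLinearEquiv.apply_symm_apply]
        exact Hm_mem _ hx
      · intro hp
        obtain ⟨h1, h2⟩ := rho_norm _ hp
        refine ⟨B.symm (rho (A p).1, (A p).2), ?_, ?_⟩
        · change ‖(B (B.symm (rho (A p).1, (A p).2))).1‖ ≠ 1
          simp only [ContinuousLinearEquiv.apply_symm_apply]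
          exact h1
        · simp only [ContinuousLinearEquiv.apply_symm_apply]
          rw [h2]
          simp
  · -- `L` is weakly integrable
    refine ⟨fun p => C.symm (Phi (A p).1), ?_, ?_, ?_⟩
    · exact C.symm.contDiff.comp (Phi_contDiff.comp (contDiff_fst.comp A.contDiff))
    · intro p
      have h1 : HasFDerivAt Phi (fderiv ℝ Phi (A p).1) (A p).1 :=
        (Phi_contDiff.differentiable (by simp) _).hasFDerivAt
      have h2 : HasFDerivAt (fun p => (A p).1)
          ((ContinuousLinearMap.fst ℝ (E3 × E3) (E j)).comp (A : E (3 + j + 3) →L[ℝ] _)) p :=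
        (hasFDerivAt_fst).comp p A.hasFDerivAt
      have h3 := (C.symm.hasFDerivAt (x := Phi (A p).1)).comp p (h1.comp p h2)
      have h4 : HasFDerivAt (fun p => C.symm (Phi (A p).1)) _ p := h3
      rw [SubmersionAt, h4.fderiv]
      exact C.symm.surjective.comp ((Phi_surj _).comp (Prod.fst_surjective.comp A.surjective))
    · intro p hp
      change C.symm (Phi (A p).1) = 0
      rw [Phi_zero _ hp, map_zero]
  · -- `L` is not a complete intersection
    rintro ⟨Ξ, hΞ, hreg, hL⟩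
    have hmem : ∀ p, Ξ p = 0 ↔ (A p).1 ∈ modelL := fun p => (hL p).symm
    have hΞ' : ContDiff ℝ ∞ Ξ := hΞ
    have hΞd : Differentiable ℝ Ξ := hΞ'.differentiable (by simp)
    have hinl : ContDiff ℝ ∞ fun q : E3 × E3 => A.symm (q, (0 : E j)) :=
      A.symm.contDiff.comp (contDiff_id.prodMk contDiff_const)
    refine not_ci (fun q => C (Ξ (A.symm (q, 0)))) (C.contDiff.comp (hΞ'.comp hinl)) ?_ ?_
    · intro q hq
      have hq0 : Ξ (A.symm (q, 0)) = 0 := by
        have : C (Ξ (A.symm (q, 0))) = C 0 := by rw [map_zero]; exact hq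
        exact C.injective this
      have h1 : HasFDerivAt (fun q : E3 × E3 => A.symm (q, (0 : E j)))
          ((A.symm : (E3 × E3) × E j →L[ℝ] _).comp
            (ContinuousLinearMap.inl ℝ (E3 × E3) (E j))) q :=
        A.symm.hasFDerivAt.comp q (hasFDerivAt_prodMk_left q (0 : E j))
      have h2 := (hΞd (A.symm (q, 0))).hasFDerivAt.comp q h1
      have h3 := (C.hasFDerivAt (x := Ξ (A.symm (q, 0)))).comp q h2
      have h4 : HasFDerivAt (fun q => C (Ξ (A.symm (q, 0)))) _ q := h3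
      rw [h4.fderiv]
      intro w
      obtain ⟨z, hz⟩ := hreg _ hq0 (C.symm w)
      -- `Ξ` vanishes along the `E j` directions
      have hvan : fderiv ℝ Ξ (A.symm (q, 0)) (A.symm (0, (A z).2)) = 0 := by
        have h5 : HasDerivAt (fun t : ℝ => A.symm (q, t • (A z).2)) (A.symm (0, (A z).2)) 0 := by
          have h6 : HasDerivAt (fun t : ℝ => (q, t • (A z).2)) (0, (A z).2) 0 := by
            have := (hasDerivAt_id (0 : ℝ)).smul_const (A z).2
            simpa using (hasDerivAt_const (0 : ℝ) q).prodMk this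
          exact A.symm.hasFDerivAt.comp_hasDerivAt 0 h6
        have h7 : HasDerivAt (fun t : ℝ => Ξ (A.symm (q, t • (A z).2)))
            (fderiv ℝ Ξ (A.symm (q, (0 : ℝ) • (A z).2)) (A.symm (0, (A z).2))) 0 :=
          (hΞd _).hasFDerivAt.comp_hasDerivAt 0 h5
        have h8 : (fun t : ℝ => Ξ (A.symm (q, t • (A z).2))) = fun _ => 0 := by
          funext t
          rw [hmem]
          have := (hmem _).1 hq0
          simpa using this
        rw [h8, zero_smul] at h7
        exact h7.unique (hasDerivAt_const (0 : ℝ) _)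
      refine ⟨(A z).1, ?_⟩
      have hz' : z = A.symm ((A z).1, 0) + A.symm (0, (A z).2) := by
        rw [← map_add]; simp
      rw [hz', map_add, hvan, add_zero] at hz
      change C (fderiv ℝ Ξ (A.symm (q, 0)) (A.symm ((A z).1, 0))) = w
      rw [hz]; simp
    · intro q
      have h1 := hmem (A.symm (q, 0))
      simp only [ContinuousLinearEquiv.apply_symm_apply] at h1
      rw [← h1]
      constructor
      · intro h
        exact C.injective (by rw [map_zero]; exact h)
      · intro h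
        rw [h, map_zero]

end Pool.Agent.Results.MP_b1931f_gt.WeakNotCI
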